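import Pool.Agent.Lib.MP_6bc78b_nt.MS.QZ.Iface

/-! Project MS, Part QZ, module FZN: the norm for one frequency. -/

set_option autoImplicit false

open Complex Filter Topology MeasureTheory ArithmeticFunction

namespace Pool.Agent.Lib.MP_6bc78b_nt.MS.QZ.H54

open Pool.Agent.Lib.MP_6bc78b_nt.MS Pool.Agent.Lib.MP_6bc78b_nt.MS.P1
open Pool.Agent.Lib.MP_6bc78b_nt.MS.QZ

/-- `f` is supported on the numbers composed of primes in `S`. -/
def Supp (S : Finset ℕ) (f : ArithmeticFunction ℂ) : Prop := ∀ n, f n ≠ 0 → n.primeFactors ⊆ S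

theorem supp_mul {S1 S2 : Finset ℕ} {f g : ArithmeticFunction ℂ} (hf : Supp S1 f)
    (hg : Supp S2 g) : Supp (S1 ∪ S2) (f * g) := by
  intro n hn
  rw [ArithmeticFunction.mul_apply] at hn
  obtain ⟨x, hx, hx0⟩ := Finset.exists_ne_zero_of_sum_ne_zero hn
  have hx' := Nat.mem_divisorsAntidiagonal.mp hx
  have ha : f x.1 ≠ 0 := left_ne_zero_of_mul hx0
  have hb : g x.2 ≠ 0 := right_ne_zero_of_mul hx0
  have h1 : x.1 ≠ 0 := by
    rintro h0
    rw [h0] at ha
    simp at ha
  have h2 : x.2 ≠ 0 := by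
    rintro h0
    rw [h0] at hb
    simp at hb
  rw [← hx'.1, Nat.primeFactors_mul h1 h2]
  exact Finset.union_subset_union (hf _ ha) (hg _ hb)

theorem supp_mono {S1 S2 : Finset ℕ} {f : ArithmeticFunction ℂ} (h : S1 ⊆ S2)
    (hf : Supp S1 f) : Supp S2 f := fun n hn => (hf n hn).trans h

theorem supp_one (S : Finset ℕ) : Supp S 1 := by
  intro n hn
  have : n = 1 := by
    by_contra h
    exact hn (by simp [ArithmeticFunction.one_apply, h])
  rw [this]
  simp

theorem supp_muz (S : Finset ℕ) (z : ℂ) : Supp S (muz S z) := by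
  intro n hn
  by_contra h
  exact hn (by simp only [muz, ArithmeticFunction.coe_mk, if_neg h])

theorem supp_pow {S : Finset ℕ} (r : ℕ) : Supp S (toC (pS S ^ r)) := by
  induction r with
  | zero => rw [pow_zero, toC_one]; exact supp_one S
  | succ r ih =>
    rw [pow_succ, toC_mul]
    have h1 : Supp S (toC (pS S)) := by
      intro n hn
      simp only [toC_apply, pS, ArithmeticFunction.coe_mk] at hn
      split_ifs at hn with h
      · rw [h.2.primeFactors]
        exact Finset.singleton_subset_iff.mpr h.1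
      · simp at hn
    have := supp_mul ih h1
    rwa [Finset.union_self] at this

theorem supp_ac (α : ℝ) (S : Finset ℕ) (K : ℕ) : Supp S (toC (ac α S K)) := by
  intro n hn
  by_contra hns
  apply hn
  simp only [toC_apply, ac, ArithmeticFunction.coe_mk]
  have : ∀ j ∈ Finset.range (K + 1), α ^ j / (j.factorial : ℝ) * (pS S ^ j) n = 0 := by
    intro j _
    have h1 : (pS S ^ j) n = 0 := by
      by_contra h0
      apply hns
      apply supp_pow j n
      rw [toC_apply]
      exact_mod_cast h0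
    rw [h1, mul_zero]
  rw [Finset.sum_eq_zero this]
  simp

theorem muz_empty (z : ℂ) : muz ∅ z = 1 := by
  ext n
  simp only [muz, ArithmeticFunction.coe_mk, ArithmeticFunction.one_apply]
  rcases Nat.eq_zero_or_pos n with h | h
  · subst h
    simp
  · by_cases h1 : n = 1
    · subst h1
      simp
    · rw [if_neg, if_neg h1]
      intro hs
      obtain ⟨p, hp, hpn⟩ := Nat.exists_prime_and_dvd h1
      have : p ∈ n.primeFactors := Nat.mem_primeFactors.mpr ⟨hp, hpn, by omega⟩
      exact absurd (hs this) (Finset.notMem_empty p)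

theorem isPr_prs (a b : ℝ) : IsPr (prs a b) := by
  intro p hp
  unfold prs at hp
  exact (Finset.mem_filter.mp hp).2.1

theorem fzn (hMul : MulStatement) (hCpr : CprStatement) (hBlk : BlkStatement)
    (hPbk : PbkStatement) (hBiu : BiuStatement) (hBls : BlsStatement) : FznStatement := by
  obtain ⟨C1, hC1, hblk⟩ := hBlk
  obtain ⟨T1, hT1, hbiu⟩ := hBiu
  obtain ⟨C2, T2, hC2, hT2, hbls⟩ := hBls
  refine ⟨C2 ^ 2 * Real.exp (C1 * C2), max T1 T2, by positivity,
    lt_of_lt_of_le hT1 (le_max_left _ _), ?_⟩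
  intro T hT j r α z hj hα0 hα1 hz
  obtain ⟨hpr, hdis, hbi, hj'⟩ := hbiu T ((le_max_left _ _).trans hT)
  obtain ⟨b1, b2, b3, b4, b5, b6⟩ := hbls T ((le_max_right _ _).trans hT) j hj
  obtain ⟨y1, y2, y3, y4, y5⟩ := hj' j hj
  -- the union of the first blocks
  have hdisj : ∀ i, Disjoint ((Finset.range i).biUnion (SS T)) (SS T i) := by
    intro i
    rw [Finset.disjoint_biUnion_left]
    intro i' hi'
    exact hdis i' i (by have := Finset.mem_range.mp hi'; omega)
  have hprU : ∀ i, IsPr ((Finset.range i).biUnion (SS T)) := by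
    intro i p hp
    obtain ⟨i', _, hp'⟩ := Finset.mem_biUnion.mp hp
    exact hpr i' p hp'
  have hbi_succ : ∀ i, (Finset.range (i + 1)).biUnion (SS T) =
      (Finset.range i).biUnion (SS T) ∪ SS T i := by
    intro i
    rw [Finset.range_add_one, Finset.biUnion_insert, Finset.union_comm]
  have hmuzU : ∀ i, muz ((Finset.range i).biUnion (SS T)) z =
      ∏ i' ∈ Finset.range i, muz (SS T i') z := by
    intro i
    induction i with
    | zero => simp [muz_empty]
    | succ i ih =>
      rw [hbi_succ, (hMul _ _ (hprU i) (hpr i) (hdisj i)).1 z, ih, Finset.prod_range_succ]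
  have hmuz : muz (prs 1 T) z = (∏ i ∈ Finset.range j, muz (SS T i) z) * muz (SS T j) z *
      muz (prs (yy T j) T) z := by
    rw [y5, (hMul _ _ (isPr_prs _ _) (isPr_prs _ _) y4).1 z, ← hbi j, hmuzU (j + 1),
      Finset.prod_range_succ]
  -- factorisation
  have hfac : muz (prs 1 T) z * toC (gA α T j r) =
      ((∏ i ∈ Finset.range j, (muz (SS T i) z * toC (ac α (SS T i) (KJ T i)))) *
        (muz (SS T j) z * toC (pS (SS T j) ^ r))) *
        (muz (prs (yy T j) T) z * toC (pS (prs (yy T j) T) ^ 0)) := by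
    rw [hmuz]
    unfold gA
    rw [toC_mul, toC_prod, Finset.prod_mul_distrib, pow_zero (pS (prs (yy T j) T)), toC_one]
    ring
  rw [hfac]
  -- supports
  have hs1 : ∀ i, Supp (SS T i) (muz (SS T i) z * toC (ac α (SS T i) (KJ T i))) := by
    intro i
    have := supp_mul (supp_muz (SS T i) z) (supp_ac α (SS T i) (KJ T i))
    rwa [Finset.union_self] at this
  have hsP : ∀ i, Supp ((Finset.range i).biUnion (SS T))
      (∏ i' ∈ Finset.range i, (muz (SS T i') z * toC (ac α (SS T i') (KJ T i')))) := by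
    intro i
    induction i with
    | zero => simpa using supp_one ∅
    | succ i ih =>
      rw [Finset.prod_range_succ, hbi_succ]
      exact supp_mul ih (hs1 i)
  have hs2 : Supp (SS T j) (muz (SS T j) z * toC (pS (SS T j) ^ r)) := by
    have := supp_mul (supp_muz (SS T j) z) (supp_pow (S := SS T j) r)
    rwa [Finset.union_self] at this
  have hs3 : Supp (prs (yy T j) T)
      (muz (prs (yy T j) T) z * toC (pS (prs (yy T j) T) ^ 0)) := by
    have := supp_mul (supp_muz (prs (yy T j) T) z) (supp_pow (S := prs (yy T j) T) 0)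
    rwa [Finset.union_self] at this
  -- norms
  have hNP : ∀ i, NN (∏ i' ∈ Finset.range i,
      (muz (SS T i') z * toC (ac α (SS T i') (KJ T i')))) ≤
      ∏ i' ∈ Finset.range i, ENNReal.ofReal ((1 + Real.exp (7 * rs (SS T i') - KJ T i')) ^ 2 *
        Real.exp (∑ p ∈ SS T i', ‖(α : ℂ) - (p : ℂ) ^ (-z)‖ ^ 2 / (p : ℝ) +
          C1 * rq (SS T i'))) := by
    intro i
    induction i with
    | zero =>
      simp only [Finset.range_zero, Finset.prod_empty]
      have h1 : NN (1 : ArithmeticFunction ℂ) = 1 := by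
        unfold NN
        rw [tsum_eq_single 1]
        · simp
        · intro n hn
          simp [ArithmeticFunction.one_apply, hn]
      rw [h1]
    | succ i ih =>
      rw [Finset.prod_range_succ, Finset.prod_range_succ]
      refine (hCpr _ _ _ _ (hdisj i) (hsP i) (hs1 i)).trans ?_
      exact mul_le_mul' ih (hblk (SS T i) α z (KJ T i) (hpr i) hα0 hα1 hz)
  have hN1 : NN (∏ i' ∈ Finset.range j, (muz (SS T i') z * toC (ac α (SS T i') (KJ T i')))) ≤
      ENNReal.ofReal (C2 * Real.exp (C1 * C2) * Real.exp (∑ i ∈ Finset.range j,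
        ∑ p ∈ SS T i, ‖(α : ℂ) - (p : ℂ) ^ (-z)‖ ^ 2 / (p : ℝ))) := by
    refine (hNP j).trans ?_
    rw [← ENNReal.ofReal_prod_of_nonneg (fun i _ => by positivity)]
    apply ENNReal.ofReal_le_ofReal
    rw [Finset.prod_mul_distrib, ← Real.exp_sum, Finset.sum_add_distrib, Real.exp_add,
      ← Finset.mul_sum]
    have h1 : Real.exp (C1 * ∑ i ∈ Finset.range j, rq (SS T i)) ≤ Real.exp (C1 * C2) :=
      Real.exp_le_exp.mpr (mul_le_mul_of_nonneg_left b5 hC1.le)
    set E := Real.exp (∑ i ∈ Finset.range j,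
        ∑ p ∈ SS T i, ‖(α : ℂ) - (p : ℂ) ^ (-z)‖ ^ 2 / (p : ℝ)) with hE
    have hE0 : 0 < E := Real.exp_pos _
    have h2 : E * Real.exp (C1 * ∑ i ∈ Finset.range j, rq (SS T i)) ≤ E * Real.exp (C1 * C2) :=
      mul_le_mul_of_nonneg_left h1 hE0.le
    calc (∏ i ∈ Finset.range j, (1 + Real.exp (7 * rs (SS T i) - KJ T i)) ^ 2) *
          (E * Real.exp (C1 * ∑ i ∈ Finset.range j, rq (SS T i)))
        ≤ C2 * (E * Real.exp (C1 * C2)) :=
          mul_le_mul b1 h2 (by positivity) hC2.le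
      _ = _ := by ring
  have hN2 := hPbk (SS T j) z r (hpr j) hz
  have hN3 : NN (muz (prs (yy T j) T) z * toC (pS (prs (yy T j) T) ^ 0)) ≤
      ENNReal.ofReal (C2 * (1 / dl T j) ^ 2) := by
    refine (hPbk (prs (yy T j) T) z 0 (isPr_prs _ _) hz).trans ?_
    apply ENNReal.ofReal_le_ofReal
    simpa using b4
  have hrs0 : 0 ≤ rs (SS T j) := Finset.sum_nonneg fun p _ => by positivity
  have hd12 : Disjoint ((Finset.range j).biUnion (SS T) ∪ SS T j) (prs (yy T j) T) := by
    rw [← hbi_succ, hbi j]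
    exact y4
  calc NN (((∏ i ∈ Finset.range j, (muz (SS T i) z * toC (ac α (SS T i) (KJ T i)))) *
        (muz (SS T j) z * toC (pS (SS T j) ^ r))) *
        (muz (prs (yy T j) T) z * toC (pS (prs (yy T j) T) ^ 0)))
      ≤ NN ((∏ i ∈ Finset.range j, (muz (SS T i) z * toC (ac α (SS T i) (KJ T i)))) *
        (muz (SS T j) z * toC (pS (SS T j) ^ r))) *
        NN (muz (prs (yy T j) T) z * toC (pS (prs (yy T j) T) ^ 0)) :=
        hCpr _ _ _ _ hd12 (supp_mul (hsP j) hs2) hs3
    _ ≤ (NN (∏ i ∈ Finset.range j, (muz (SS T i) z * toC (ac α (SS T i) (KJ T i)))) *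
        NN (muz (SS T j) z * toC (pS (SS T j) ^ r))) *
        NN (muz (prs (yy T j) T) z * toC (pS (prs (yy T j) T) ^ 0)) :=
        mul_le_mul' (hCpr _ _ _ _ (hdisj j) (hsP j) hs2) le_rfl
    _ ≤ (ENNReal.ofReal (C2 * Real.exp (C1 * C2) * Real.exp (∑ i ∈ Finset.range j,
        ∑ p ∈ SS T i, ‖(α : ℂ) - (p : ℂ) ^ (-z)‖ ^ 2 / (p : ℝ))) *
        ENNReal.ofReal (Real.exp (2 * rs (SS T j)) *
          (2 ^ r * (r.factorial : ℝ) * rs (SS T j) ^ r))) *
        ENNReal.ofReal (C2 * (1 / dl T j) ^ 2) :=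
        mul_le_mul' (mul_le_mul' hN1 hN2) hN3
    _ = ENNReal.ofReal (C2 ^ 2 * Real.exp (C1 * C2) *
      Real.exp (∑ i ∈ Finset.range j, ∑ p ∈ SS T i, ‖(α : ℂ) - (p : ℂ) ^ (-z)‖ ^ 2 / (p : ℝ)) *
      (Real.exp (2 * rs (SS T j)) * (2 ^ r * (r.factorial : ℝ) * rs (SS T j) ^ r)) *
      (1 / dl T j) ^ 2) := by
        rw [← ENNReal.ofReal_mul (by positivity), ← ENNReal.ofReal_mul (by positivity)]
        congr 1
        ring

end Pool.Agent.Lib.MP_6bc78b_nt.MS.QZ.H54
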