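import Pool.Agent.Lib.MP_6bc78b_nt.MS.QZ.Iface

/-! Project MS, Part QZ, module NR0: Cauchy–Schwarz in the frequency. -/

set_option autoImplicit false

open Complex Filter Topology MeasureTheory ArithmeticFunction

namespace Pool.Agent.Lib.MP_6bc78b_nt.MS.QZ.H54

open Pool.Agent.Lib.MP_6bc78b_nt.MS Pool.Agent.Lib.MP_6bc78b_nt.MS.P1
open Pool.Agent.Lib.MP_6bc78b_nt.MS.QZ

theorem cont_pow (c : ℝ) {d : ℕ} (hd : d ≠ 0) :
    Continuous (fun τ : ℝ => (d : ℂ) ^ (-((c : ℂ) + τ * I))) := by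
  apply Continuous.const_cpow
  · fun_prop
  · exact Or.inl (by exact_mod_cast hd)

theorem norm_pow (c : ℝ) {d : ℕ} (hd : d ≠ 0) (τ : ℝ) :
    ‖(d : ℂ) ^ (-((c : ℂ) + τ * I))‖ = (d : ℝ) ^ (-c) := by
  have h0 : 0 < (d : ℝ) := by exact_mod_cast Nat.pos_of_ne_zero hd
  have : (d : ℂ) = ((d : ℝ) : ℂ) := by simp
  rw [this, Complex.norm_cpow_eq_rpow_re_of_pos h0]
  simp

/-- The integrand at `n`. -/
theorem conv_eq {T c : ℝ} {b g : ArithmeticFunction ℝ} {R : ℝ → ℂ} (hT : 1 ≤ T)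
    (hRi : Integrable R)
    (hb : ∀ n : ℕ, n ≠ 0 → ((b n : ℝ) : ℂ) = ∫ τ : ℝ, R τ *
      (((moebius n : ℤ) : ℂ) * (n : ℂ) ^ (-((c : ℂ) + τ * I)))) {n : ℕ}
    (hn : n ∈ Finset.Icc 1 ⌊T⌋₊) :
    ((((b * g) n : ℝ)) : ℂ) =
      ∫ τ : ℝ, R τ * (muz (prs 1 T) ((c : ℂ) + τ * I) * toC g) n := by
  have hn' := Finset.mem_Icc.mp hn
  have e1 : ∀ τ : ℝ, (muz (prs 1 T) ((c : ℂ) + τ * I) * toC g) n =
      ∑ x ∈ n.divisorsAntidiagonal, (((moebius x.1 : ℤ) : ℂ) *
        (x.1 : ℂ) ^ (-((c : ℂ) + τ * I))) * ((g x.2 : ℝ) : ℂ) := by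
    intro τ
    rw [ArithmeticFunction.mul_apply]
    apply Finset.sum_congr rfl
    intro x hx
    have hx' := Nat.mem_divisorsAntidiagonal.mp hx
    have hx1 : x.1 ∣ n := ⟨x.2, hx'.1.symm⟩
    have hsub : x.1.primeFactors ⊆ prs 1 T := by
      intro p hp
      have hpp := Nat.prime_of_mem_primeFactors hp
      have hpd : p ∣ n := (Nat.dvd_of_mem_primeFactors hp).trans hx1
      have hple : p ≤ ⌊T⌋₊ := (Nat.le_of_dvd (by omega) hpd).trans hn'.2
      unfold prs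
      rw [Finset.mem_filter, Finset.mem_Icc]
      exact ⟨⟨hpp.one_lt.le, hple⟩, hpp, by exact_mod_cast hpp.one_lt⟩
    simp only [muz, toC_apply, ArithmeticFunction.coe_mk, if_pos hsub]
  simp only [e1, Finset.mul_sum]
  rw [MeasureTheory.integral_finset_sum]
  · rw [ArithmeticFunction.mul_apply]
    push_cast
    apply Finset.sum_congr rfl
    intro x hx
    have hx' := Nat.mem_divisorsAntidiagonal.mp hx
    have hx0 : x.1 ≠ 0 := by
      rintro h0
      rw [h0, zero_mul] at hx'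
      exact hx'.2 hx'.1.symm
    rw [hb x.1 hx0, ← MeasureTheory.integral_mul_const]
    apply MeasureTheory.integral_congr_ae
    refine Filter.Eventually.of_forall fun τ => ?_
    simp only
    ring
  · intro x hx
    have hx' := Nat.mem_divisorsAntidiagonal.mp hx
    have hx0 : x.1 ≠ 0 := by
      rintro h0
      rw [h0, zero_mul] at hx'
      exact hx'.2 hx'.1.symm
    refine hRi.mul_bdd (c := ‖(((moebius x.1 : ℤ) : ℂ))‖ * (x.1 : ℝ) ^ (-c) *
      ‖((g x.2 : ℝ) : ℂ)‖) ?_ ?_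
    · exact ((continuous_const.mul (cont_pow c hx0)).mul continuous_const).aestronglyMeasurable
    · refine Filter.Eventually.of_forall fun τ => ?_
      rw [norm_mul, norm_mul, norm_pow c hx0]

theorem conv_cont {T c : ℝ} {g : ArithmeticFunction ℝ} (n : ℕ) :
    Continuous (fun τ : ℝ => (muz (prs 1 T) ((c : ℂ) + τ * I) * toC g) n) := by
  have e1 : (fun τ : ℝ => (muz (prs 1 T) ((c : ℂ) + τ * I) * toC g) n) = fun τ : ℝ =>
      ∑ x ∈ n.divisorsAntidiagonal, (muz (prs 1 T) ((c : ℂ) + τ * I)) x.1 * toC g x.2 := by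
    funext τ
    rw [ArithmeticFunction.mul_apply]
  rw [e1]
  apply continuous_finset_sum
  intro x hx
  have hx' := Nat.mem_divisorsAntidiagonal.mp hx
  have hx0 : x.1 ≠ 0 := by
    rintro h0
    rw [h0, zero_mul] at hx'
    exact hx'.2 hx'.1.symm
  apply Continuous.mul _ continuous_const
  simp only [muz, ArithmeticFunction.coe_mk]
  by_cases h : x.1.primeFactors ⊆ prs 1 T
  · simp only [if_pos h]
    exact continuous_const.mul (cont_pow c hx0)
  · simp only [if_neg h]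
    exact continuous_const

theorem nn_partial {f : ArithmeticFunction ℂ} {X : ℝ} (hX : 0 ≤ X) (N : ℕ)
    (h : NN f ≤ ENNReal.ofReal X) : ∑ n ∈ Finset.Icc 1 N, ‖f n‖ ^ 2 / (n : ℝ) ≤ X := by
  have h1 : ENNReal.ofReal (∑ n ∈ Finset.Icc 1 N, ‖f n‖ ^ 2 / (n : ℝ)) ≤ ENNReal.ofReal X := by
    rw [ENNReal.ofReal_sum_of_nonneg (fun i _ => by positivity)]
    exact (ENNReal.sum_le_tsum _).trans h
  exact (ENNReal.ofReal_le_ofReal_iff hX).mp h1

theorem nr0 : Nr0Statement := by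
  intro R h c B H T b g hT hB hR hh h1 hi hH hb hNN
  have hRn : Integrable (fun τ : ℝ => ‖R τ‖) := by
    refine hi.mono' (hR.norm.aestronglyMeasurable) ?_
    refine Filter.Eventually.of_forall fun τ => ?_
    rw [Real.norm_of_nonneg (norm_nonneg _)]
    exact le_mul_of_one_le_right (norm_nonneg _) (h1 τ)
  have hRi : Integrable R := (integrable_norm_iff hR.aestronglyMeasurable).mp hRn
  set N := ⌊T⌋₊ with hN
  set F : ℝ → ℕ → ℂ := fun τ n => (muz (prs 1 T) ((c : ℂ) + τ * I) * toC g) n with hF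
  have hFc : ∀ n, Continuous (fun τ => F τ n) := fun n => conv_cont n
  set A := ∫ τ : ℝ, ‖R τ‖ * h τ with hA
  have hA0 : 0 ≤ A := integral_nonneg fun τ =>
    mul_nonneg (norm_nonneg _) (zero_le_one.trans (h1 τ))
  have hpart : ∀ τ, ∑ n ∈ Finset.Icc 1 N, ‖F τ n‖ ^ 2 / (n : ℝ) ≤ B * h τ ^ 2 :=
    fun τ => nn_partial (by positivity) N (hNN τ)
  -- each coefficient is dominated
  have hFb : ∀ n ∈ Finset.Icc 1 N, ∀ τ, ‖F τ n‖ ^ 2 ≤ n * (B * h τ ^ 2) := by
    intro n hn τ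
    have hn' := Finset.mem_Icc.mp hn
    have hn0 : (0:ℝ) < n := by exact_mod_cast hn'.1
    have h2 : ‖F τ n‖ ^ 2 / (n : ℝ) ≤ B * h τ ^ 2 :=
      (Finset.single_le_sum (f := fun n : ℕ => ‖F τ n‖ ^ 2 / (n : ℝ))
        (fun i _ => by positivity) hn).trans (hpart τ)
    rw [div_le_iff₀ hn0] at h2
    linarith
  have hint : ∀ n ∈ Finset.Icc 1 N, Integrable (fun τ : ℝ => ‖R τ‖ / h τ * ‖F τ n‖ ^ 2) := by
    intro n hn
    refine (hi.const_mul (n * B)).mono' ?_ ?_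
    · apply Continuous.aestronglyMeasurable
      exact (hR.norm.div hh fun τ => (zero_lt_one.trans_le (h1 τ)).ne').mul ((hFc n).norm.pow 2)
    · refine Filter.Eventually.of_forall fun τ => ?_
      have h0 : 0 < h τ := zero_lt_one.trans_le (h1 τ)
      rw [Real.norm_of_nonneg (by positivity)]
      have h3 := mul_le_mul_of_nonneg_left (hFb n hn τ)
        (by positivity : 0 ≤ ‖R τ‖ / h τ)
      have e : ‖R τ‖ / h τ * (n * (B * h τ ^ 2)) = n * B * (‖R τ‖ * h τ) := by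
        field_simp
      rwa [e] at h3
  -- main bound for one coefficient
  have key : ∀ A' : ℝ, 0 < A' → A ≤ A' → ∀ n ∈ Finset.Icc 1 N,
      ((b * g) n) ^ 2 ≤ A' * ∫ τ : ℝ, ‖R τ‖ / h τ * ‖F τ n‖ ^ 2 := by
    intro A' hA' hAA n hn
    have e := conv_eq (g := g) hT hRi hb hn
    set x := (b * g) n with hx
    have hx1 : |x| ≤ ∫ τ : ℝ, ‖R τ‖ * ‖F τ n‖ := by
      have h2 : ‖((x : ℝ) : ℂ)‖ = |x| := by simp
      rw [← h2, e]
      refine (norm_integral_le_integral_norm _).trans (le_of_eq ?_)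
      congr 1
      funext τ
      rw [norm_mul]
    have hi2 : Integrable (fun τ : ℝ => 1 / 2 * (x ^ 2 / A' * (‖R τ‖ * h τ) +
        A' * (‖R τ‖ / h τ * ‖F τ n‖ ^ 2))) :=
      ((hi.const_mul _).add ((hint n hn).const_mul _)).const_mul _
    have hpt : ∀ τ, |x| * (‖R τ‖ * ‖F τ n‖) ≤ 1 / 2 * (x ^ 2 / A' * (‖R τ‖ * h τ) +
        A' * (‖R τ‖ / h τ * ‖F τ n‖ ^ 2)) := by
      intro τ
      have h0 : 0 < h τ := zero_lt_one.trans_le (h1 τ)
      have h3 : 0 ≤ ‖R τ‖ / (h τ * A') * (|x| * h τ - A' * ‖F τ n‖) ^ 2 := by positivity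
      have e2 : ‖R τ‖ / (h τ * A') * (|x| * h τ - A' * ‖F τ n‖) ^ 2 =
          (|x| ^ 2 / A' * (‖R τ‖ * h τ) + A' * (‖R τ‖ / h τ * ‖F τ n‖ ^ 2)) -
            2 * (|x| * (‖R τ‖ * ‖F τ n‖)) := by
        field_simp
        ring
      rw [e2, sq_abs] at h3
      linarith
    have hi3 : Integrable (fun τ : ℝ => |x| * (‖R τ‖ * ‖F τ n‖)) := by
      refine hi2.mono' ?_ ?_
      · exact (continuous_const.mul (hR.norm.mul (hFc n).norm)).aestronglyMeasurable
      · refine Filter.Eventually.of_forall fun τ => ?_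
        rw [Real.norm_of_nonneg (by positivity)]
        exact hpt τ
    have h4 : |x| * ∫ τ : ℝ, ‖R τ‖ * ‖F τ n‖ ≤ 1 / 2 * (x ^ 2 / A' * A +
        A' * ∫ τ : ℝ, ‖R τ‖ / h τ * ‖F τ n‖ ^ 2) := by
      rw [← integral_const_mul]
      refine (integral_mono hi3 hi2 hpt).trans (le_of_eq ?_)
      rw [integral_const_mul, integral_add (hi.const_mul _) ((hint n hn).const_mul _),
        integral_const_mul, integral_const_mul]
    have h5 : x ^ 2 ≤ |x| * ∫ τ : ℝ, ‖R τ‖ * ‖F τ n‖ := by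
      rw [← sq_abs, pow_two]
      exact mul_le_mul_of_nonneg_left hx1 (abs_nonneg _)
    have h6 : x ^ 2 / A' * A ≤ x ^ 2 := by
      rw [div_mul_eq_mul_div, div_le_iff₀ hA']
      exact mul_le_mul_of_nonneg_left hAA (sq_nonneg _)
    linarith
  have htot : ∀ A' : ℝ, 0 < A' → A ≤ A' →
      ∑ n ∈ Finset.Icc 1 N, ((b * g) n) ^ 2 / (n : ℝ) ≤ A' * (B * A) := by
    intro A' hA' hAA
    calc ∑ n ∈ Finset.Icc 1 N, ((b * g) n) ^ 2 / (n : ℝ)
        ≤ ∑ n ∈ Finset.Icc 1 N, A' * ∫ τ : ℝ, ‖R τ‖ / h τ * ‖F τ n‖ ^ 2 / (n : ℝ) := by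
          apply Finset.sum_le_sum
          intro n hn
          have e : ∫ τ : ℝ, ‖R τ‖ / h τ * ‖F τ n‖ ^ 2 / (n : ℝ) =
              (∫ τ : ℝ, ‖R τ‖ / h τ * ‖F τ n‖ ^ 2) / (n : ℝ) := integral_div _ _
          rw [e, ← mul_div_assoc]
          gcongr
          exact key A' hA' hAA n hn
      _ = A' * ∫ τ : ℝ, ∑ n ∈ Finset.Icc 1 N, ‖R τ‖ / h τ * ‖F τ n‖ ^ 2 / (n : ℝ) := by
          rw [integral_finset_sum _ (fun n hn => (hint n hn).div_const _), Finset.mul_sum]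
      _ ≤ A' * ∫ τ : ℝ, B * (‖R τ‖ * h τ) := by
          apply mul_le_mul_of_nonneg_left _ hA'.le
          apply integral_mono (integrable_finset_sum _ fun n hn => (hint n hn).div_const _)
            (hi.const_mul _)
          intro τ
          have h0 : 0 < h τ := zero_lt_one.trans_le (h1 τ)
          have e : ∑ n ∈ Finset.Icc 1 N, ‖R τ‖ / h τ * ‖F τ n‖ ^ 2 / (n : ℝ) =
              ‖R τ‖ / h τ * ∑ n ∈ Finset.Icc 1 N, ‖F τ n‖ ^ 2 / (n : ℝ) := by
            rw [Finset.mul_sum]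
            apply Finset.sum_congr rfl
            intro n _
            ring
          simp only
          rw [e]
          have h3 := mul_le_mul_of_nonneg_left (hpart τ) (by positivity : 0 ≤ ‖R τ‖ / h τ)
          have e2 : ‖R τ‖ / h τ * (B * h τ ^ 2) = B * (‖R τ‖ * h τ) := by
            field_simp
          rwa [e2] at h3
      _ = A' * (B * A) := by rw [integral_const_mul]
  -- conclusion
  have hH0 : 0 ≤ H := hA0.trans hH
  apply le_of_forall_pos_le_add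
  intro ε hε
  have h2 : 0 < H + ε / (B * H + 1) := by positivity
  have h3 := htot _ h2 (by
    have : 0 < ε / (B * H + 1) := by positivity
    linarith)
  have h4 : B * A ≤ B * H := mul_le_mul_of_nonneg_left hH hB
  have h5 : (H + ε / (B * H + 1)) * (B * A) ≤ (H + ε / (B * H + 1)) * (B * H) :=
    mul_le_mul_of_nonneg_left h4 h2.le
  have h6 : ε / (B * H + 1) * (B * H) ≤ ε := by
    rw [div_mul_eq_mul_div, div_le_iff₀ (by positivity)]
    nlinarith
  nlinarith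

end Pool.Agent.Lib.MP_6bc78b_nt.MS.QZ.H54
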